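import Mathlib

set_option autoImplicit false

open Finset

namespace Pool.Agent.Results.MP_071053_nt.SmallBasis

/-- The residues modulo `p` of the squares of `0, 1, ..., (p - 1) / 2`. -/
def sq (p : ℕ) : Finset ℕ := (range ((p + 1) / 2)).image (fun x => x ^ 2 % p)

lemma card_sq (p : ℕ) : (sq p).card ≤ (p + 1) / 2 := by
  unfold sq
  exact card_image_le.trans (by rw [card_range])

lemma mem_sq {p : ℕ} (hp : 0 < p) (hodd : p % 2 = 1) (k : ℕ) : k ^ 2 % p ∈ sq p := by
  have hx : k % p < p := Nat.mod_lt _ hp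
  unfold sq
  by_cases h : k % p < (p + 1) / 2
  · exact mem_image.2 ⟨k % p, mem_range.2 h, by rw [← Nat.pow_mod]⟩
  · refine mem_image.2 ⟨p - k % p, mem_range.2 (by omega), ?_⟩
    have h1 : (p - k % p) ^ 2 ≡ k ^ 2 [MOD p] := by
      rw [← ZMod.natCast_eq_natCast_iff]
      rw [Nat.cast_pow, Nat.cast_sub hx.le]
      simp
    exact h1

/-- The product of a finite set of numbers. -/
def Q (S : Finset ℕ) : ℕ := ∏ p ∈ S, p

lemma odd_of {S : Finset ℕ} (hS : ∀ p ∈ S, p.Prime ∧ 2 < p) {p : ℕ} (h : p ∈ S) :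
    p % 2 = 1 := by
  have h1 := hS p h
  have h2 := h1.1.eq_two_or_odd
  omega

lemma Q_pos {S : Finset ℕ} (hS : ∀ p ∈ S, p.Prime ∧ 2 < p) : 0 < Q S := by
  unfold Q
  exact prod_pos (fun p hp => (hS p hp).1.pos)

lemma inj_aux {S : Finset ℕ} (hS : ∀ p ∈ S, p.Prime ∧ 2 < p) {r r' : ℕ}
    (h : ∀ p ∈ S, r % p = r' % p) : r ≡ r' [MOD Q S] := by
  have h1 : (∏ p ∈ S, (p : ℤ)) ∣ ((r' : ℤ) - r) := by
    apply Finset.prod_dvd_of_coprime
    · intro a ha b hb hab
      have ha' := (hS a (mem_coe.1 ha)).1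
      have hb' := (hS b (mem_coe.1 hb)).1
      exact Nat.isCoprime_iff_coprime.2 ((Nat.coprime_primes ha' hb').2 hab)
    · intro p hp
      have h2 : r ≡ r' [MOD p] := h p hp
      exact (Nat.modEq_iff_dvd).1 h2
  rw [Nat.modEq_iff_dvd]
  unfold Q
  push_cast
  exact h1

/-- The residues modulo `Q S * t` of the first squares. -/
def A2 (S : Finset ℕ) (t n : ℕ) : Finset ℕ := (range (n + 1)).image (fun k => k ^ 2 % (Q S * t))

lemma card_A2 {S : Finset ℕ} (hS : ∀ p ∈ S, p.Prime ∧ 2 < p) (t n : ℕ) (ht : 0 < t) :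
    (A2 S t n).card ≤ t * ∏ p ∈ S, (sq p).card := by
  classical
  have h1 : (range t ×ˢ S.pi (fun p => sq p)).card = t * ∏ p ∈ S, (sq p).card := by
    rw [card_product, card_range, card_pi]
  rw [← h1]
  refine card_le_card_of_injOn (fun r => (r / Q S, fun p _ => r % p)) ?_ ?_
  · intro r hr
    rw [mem_coe] at hr
    unfold A2 at hr
    rw [mem_image] at hr
    obtain ⟨k, -, rfl⟩ := hr
    have hlt : k ^ 2 % (Q S * t) < Q S * t := Nat.mod_lt _ (Nat.mul_pos (Q_pos hS) ht)
    simp only [coe_product, Set.mem_prod, mem_coe, mem_range, mem_pi]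
    refine ⟨Nat.div_lt_of_lt_mul hlt, fun p hp => ?_⟩
    have hdvd : p ∣ Q S * t := (dvd_prod_of_mem _ hp).mul_right t
    rw [Nat.mod_mod_of_dvd _ hdvd]
    exact mem_sq (hS p hp).1.pos (odd_of hS hp) k
  · intro r _ r' _ heq
    simp only [Prod.mk.injEq] at heq
    obtain ⟨h2, h3⟩ := heq
    have h4 : ∀ p ∈ S, r % p = r' % p := by
      intro p hp
      exact congrFun (congrFun h3 p) hp
    have h5 : r % Q S = r' % Q S := inj_aux hS h4
    rw [← Nat.div_add_mod r (Q S), ← Nat.div_add_mod r' (Q S), h2, h5]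

/-- The whole set: the multiples of `Q S * t` and the residues. -/
def A (S : Finset ℕ) (t n : ℕ) : Finset ℕ :=
  (range (n ^ 2 / (Q S * t) + 1)).image (fun i => (Q S * t) * i) ∪ A2 S t n

lemma covers (S : Finset ℕ) (t n : ℕ) (k : ℕ) (hk : k ≤ n) :
    ∃ a ∈ A S t n, ∃ b ∈ A S t n, a + b = k ^ 2 := by
  refine ⟨(Q S * t) * (k ^ 2 / (Q S * t)), ?_, k ^ 2 % (Q S * t), ?_, Nat.div_add_mod _ _⟩
  · unfold A
    refine mem_union_left _ (mem_image.2 ⟨k ^ 2 / (Q S * t), mem_range.2 ?_, rfl⟩)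
    exact Nat.lt_succ_of_le (Nat.div_le_div_right (Nat.pow_le_pow_left hk 2))
  · unfold A A2
    exact mem_union_right _ (mem_image.2 ⟨k, mem_range.2 (by omega), rfl⟩)

lemma card_A {S : Finset ℕ} (hS : ∀ p ∈ S, p.Prime ∧ 2 < p) {r : ℝ}
    (hr : ∀ p ∈ S, ((sq p).card : ℝ) ≤ r * p) (t n : ℕ) (ht : 0 < t) :
    ((A S t n).card : ℝ) ≤ (n : ℝ) ^ 2 / (Q S * t) + 1
      + (Q S * t) * r ^ S.card := by
  have h1 : (A S t n).card ≤ (n ^ 2 / (Q S * t) + 1) + t * ∏ p ∈ S, (sq p).card := by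
    unfold A
    refine (card_union_le _ _).trans (add_le_add ?_ (card_A2 hS t n ht))
    exact card_image_le.trans (by rw [card_range])
  have h2 : ((∏ p ∈ S, (sq p).card : ℕ) : ℝ) ≤ (Q S : ℝ) * r ^ S.card := by
    unfold Q
    push_cast
    rw [← prod_const, ← prod_mul_distrib]
    refine prod_le_prod (fun p _ => Nat.cast_nonneg _) (fun p hp => ?_)
    have h3 := hr p hp
    linarith
  have h3 : ((n ^ 2 / (Q S * t) : ℕ) : ℝ) ≤ (n : ℝ) ^ 2 / (Q S * t) := by
    have := @Nat.cast_div_le ℝ _ _ _ (n ^ 2) (Q S * t)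
    push_cast at this
    exact this
  have h4 : ((A S t n).card : ℝ) ≤ ((n ^ 2 / (Q S * t) + 1 + t * ∏ p ∈ S, (sq p).card : ℕ) : ℝ) := by
    exact_mod_cast h1
  refine h4.trans ?_
  rw [Nat.cast_add, Nat.cast_add, Nat.cast_mul, Nat.cast_one]
  have h5 : (t : ℝ) * ((∏ p ∈ S, (sq p).card : ℕ) : ℝ)
      ≤ (t : ℝ) * ((Q S : ℝ) * r ^ S.card) :=
    mul_le_mul_of_nonneg_left h2 (Nat.cast_nonneg _)
  have h6 : (t : ℝ) * ((Q S : ℝ) * r ^ S.card) = (Q S * t) * r ^ S.card := by ring
  linarith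

lemma pow_le_Q {S : Finset ℕ} (hS : ∀ p ∈ S, p.Prime ∧ 2 < p) : 2 ^ S.card ≤ Q S := by
  unfold Q
  rw [← prod_const]
  exact prod_le_prod' (fun p hp => (hS p hp).2.le)

/-- The finite estimate. -/
lemma finite_bound {S : Finset ℕ} (hS : ∀ p ∈ S, p.Prime ∧ 2 < p) {g : ℝ} (hg1 : 1 ≤ g)
    (hg2 : g ≤ 2) (hg : ∀ p ∈ S, ((sq p).card : ℝ) ≤ (1 / g) * p) (n : ℕ) (hn : Q S ≤ n) :
    ∃ B : Finset ℕ, (∀ k : ℕ, 1 ≤ k → k ≤ n → ∃ a ∈ B, ∃ b ∈ B, a + b = k ^ 2) ∧
      (B.card : ℝ) ≤ 4 * n / Real.sqrt (g ^ S.card) := by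
  set w := S.card with hw
  set s := Real.sqrt (g ^ w) with hs
  have hpow1 : (1 : ℝ) ≤ g ^ w := one_le_pow₀ hg1
  have hs1 : 1 ≤ s := by rw [hs]; exact Real.one_le_sqrt.2 hpow1
  have hs0 : 0 < s := by linarith
  have hss : s * s = g ^ w := Real.mul_self_sqrt (by linarith)
  have hQ0 : (0 : ℝ) < Q S := by exact_mod_cast Q_pos hS
  have hQn : (Q S : ℝ) ≤ n := by exact_mod_cast hn
  have hn1 : (1 : ℝ) ≤ n := by
    have : 1 ≤ n := le_trans (Q_pos hS) hn
    exact_mod_cast this
  have hn0 : (0 : ℝ) < n := by linarith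
  set t := ⌈(n : ℝ) * s / Q S⌉₊ with ht
  have htpos : 0 < t := Nat.ceil_pos.2 (by positivity)
  have ht0 : (0 : ℝ) < t := by exact_mod_cast htpos
  have hM1 : (n : ℝ) * s ≤ Q S * t := by
    have h1 : (n : ℝ) * s / Q S ≤ t := Nat.le_ceil _
    rw [div_le_iff₀ hQ0] at h1
    linarith
  have hM2 : (Q S * t : ℝ) ≤ 2 * (n * s) := by
    have h1 : (t : ℝ) < (n : ℝ) * s / Q S + 1 := Nat.ceil_lt_add_one (by positivity)
    have h2 : (Q S : ℝ) * t ≤ Q S * ((n : ℝ) * s / Q S + 1) :=
      mul_le_mul_of_nonneg_left h1.le hQ0.le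
    have h3 : (Q S : ℝ) * ((n : ℝ) * s / Q S + 1) = n * s + Q S := by
      field_simp
    have h4 : (n : ℝ) ≤ n * s := le_mul_of_one_le_right hn0.le hs1
    linarith
  refine ⟨A S t n, fun k _ hk => covers S t n k hk, ?_⟩
  have hc := card_A hS hg t n htpos
  have e1 : (n : ℝ) ^ 2 / (Q S * t) ≤ n / s := by
    rw [div_le_div_iff₀ (by positivity) hs0]
    nlinarith
  have e2 : (Q S * t : ℝ) * (1 / g) ^ w ≤ 2 * (n / s) := by
    have h1 : (1 / g : ℝ) ^ w = 1 / (s * s) := by
      rw [hss, one_div_pow]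
    rw [h1]
    have h2 : (Q S * t : ℝ) * (1 / (s * s)) ≤ (2 * (n * s)) * (1 / (s * s)) :=
      mul_le_mul_of_nonneg_right hM2 (by positivity)
    have h3 : (2 * (n * s)) * (1 / (s * s)) = 2 * (n / s) := by
      field_simp
    linarith
  have e3 : (1 : ℝ) ≤ n / s := by
    rw [le_div_iff₀ hs0, one_mul]
    have h1 : s * s ≤ n := by
      rw [hss]
      have h2 : g ^ w ≤ (2 : ℝ) ^ w := pow_le_pow_left₀ (by linarith) hg2 _
      have h3 : ((2 ^ w : ℕ) : ℝ) ≤ Q S := by exact_mod_cast pow_le_Q hS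
      push_cast at h3
      linarith
    nlinarith
  have e4 : 4 * (n : ℝ) / s = 4 * (n / s) := by ring
  rw [e4]
  linarith

lemma log_small (δ : ℝ) (hδ : 0 < δ) : ∃ X : ℝ, ∀ x : ℝ, X ≤ x → Real.log x ≤ δ * x := by
  have h := Real.isLittleO_log_id_atTop.bound hδ
  rw [Filter.eventually_atTop] at h
  obtain ⟨X, hX⟩ := h
  refine ⟨max X 0, fun x hx => ?_⟩
  have h1 := hX x (le_of_max_le_left hx)
  have h0 : 0 ≤ x := le_of_max_le_right hx
  simp only [id, Real.norm_eq_abs, abs_of_nonneg h0] at h1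
  exact (le_abs_self _).trans h1

/-- many primes in an interval, of prescribed number and with small product -/
lemma prime_set (z : ℕ) (hz : 2 ≤ z) : ∃ X : ℝ, ∀ n : ℕ, X ≤ Real.log n →
    ∃ S : Finset ℕ, (∀ p ∈ S, p.Prime ∧ 2 < p) ∧ (∀ p ∈ S, z ≤ p) ∧ Q S ≤ n ∧
      S.card = ⌊Real.log n / Real.log (2 * Real.log n)⌋₊ := by
  obtain ⟨X1, hX1⟩ := log_small (1 / (100 * (z + 1))) (by positivity)
  refine ⟨max X1 100, fun n hn => ?_⟩
  set L := Real.log (n : ℝ) with hLdef
  have hL1 : X1 ≤ L := le_of_max_le_left hn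
  have hL2 : 100 ≤ L := le_of_max_le_right hn
  have hn0 : 0 < n := by
    rcases Nat.eq_zero_or_pos n with h | h
    · rw [h] at hLdef; simp at hLdef; linarith
    · exact h
  have hn0' : (0 : ℝ) < n := by exact_mod_cast hn0
  have hz0 : (0 : ℝ) ≤ z := Nat.cast_nonneg z
  set y := ⌊2 * L⌋₊ with hy
  have hy1 : (y : ℝ) ≤ 2 * L := Nat.floor_le (by linarith)
  have hy2 : 2 * L < y + 1 := Nat.lt_floor_add_one _
  have hlog2a : (0.69 : ℝ) < Real.log 2 := by have := Real.log_two_gt_d9; linarith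
  have hlog2b : Real.log 2 < 0.7 := by have := Real.log_two_lt_d9; linarith
  have hlogL : Real.log L ≤ L / (100 * (z + 1)) := by
    have := hX1 L hL1
    rw [one_div_mul_eq_div] at this
    exact this
  have hlog2L : Real.log (2 * L) = Real.log 2 + Real.log L :=
    Real.log_mul (by norm_num) (by linarith)
  have hlogLpos : 0 < Real.log L := Real.log_pos (by linarith)
  have hl0 : 0 < Real.log (2 * L) := by linarith
  have hlogL1 : 1 < Real.log L := by
    rw [Real.lt_log_iff_exp_lt (by linarith)]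
    have := Real.exp_one_lt_d9
    linarith
  have hzlog : (z + 1) * Real.log L ≤ L / 100 := by
    have h1 : (z + 1) * Real.log L ≤ (z + 1) * (L / (100 * (z + 1))) :=
      mul_le_mul_of_nonneg_left hlogL (by linarith)
    have h2 : ((z : ℝ) + 1) * (L / (100 * (z + 1))) = L / 100 := by
      field_simp
    linarith
  set k := ⌊L / Real.log (2 * L)⌋₊ with hk
  have hk1 : (k : ℝ) ≤ L / Real.log (2 * L) := Nat.floor_le (by positivity)
  have hy100 : (100 : ℝ) ≤ y := by linarith
  have hlogy : Real.log y ≤ Real.log (2 * L) := Real.log_le_log (by linarith) hy1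
  have hlogypos : 0 < Real.log y := Real.log_pos (by linarith)
  have hlogy1 : Real.log ((y : ℝ) + 1) ≤ Real.log 2 + Real.log (2 * L) := by
    rw [← Real.log_mul (by norm_num) (by linarith)]
    exact Real.log_le_log (by linarith) (by linarith)
  -- the number of primes
  have hpi : (k : ℝ) + (z + 1) ≤ Nat.primeCounting y := by
    have h1 := Chebyshev.pi_ge y
    have h2 : L / Real.log (2 * L) + (z + 1)
        ≤ ((y : ℝ) * Real.log 2 - Real.log ((y : ℝ) + 1)) / Real.log y := by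
      have h3 : L / Real.log (2 * L) + (z + 1) = (L + (z + 1) * Real.log (2 * L)) / Real.log (2 * L) := by
        rw [add_div, mul_div_assoc, div_self hl0.ne', mul_one]
      rw [h3]
      have h4 : (z + 1) * Real.log (2 * L) ≤ L / 50 := by
        rw [hlog2L]
        have h5 : Real.log 2 ≤ Real.log L := by linarith
        nlinarith
      have h6 : L + (z + 1) * Real.log (2 * L) ≤ (y : ℝ) * Real.log 2 - Real.log ((y : ℝ) + 1) := by
        have h7 : (2 * L - 1) * Real.log 2 ≤ y * Real.log 2 :=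
          mul_le_mul_of_nonneg_right (by linarith) (by linarith)
        have h8 : Real.log L ≤ L / 100 := by nlinarith
        nlinarith
      apply div_le_div₀ _ h6 hlogypos hlogy
      have : 0 ≤ (z + 1) * Real.log (2 * L) := by positivity
      linarith
    linarith
  have hcardle : k ≤ ((Nat.primesLE y).filter (fun p => z < p)).card := by
    have h1 : (Nat.primesLE y).card = Nat.primeCounting y := Nat.primesLE_card_eq_primeCounting y
    have h2 := card_filter_add_card_filter_not (s := Nat.primesLE y) (fun p => z < p)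
    have h3 : ((Nat.primesLE y).filter (fun p => ¬ z < p)).card ≤ z + 1 := by
      have h4 : (Nat.primesLE y).filter (fun p => ¬ z < p) ⊆ range (z + 1) := by
        intro p hp
        rw [mem_filter] at hp
        rw [mem_range]
        omega
      exact (card_le_card h4).trans (by rw [card_range])
    have h5 : k + (z + 1) ≤ Nat.primeCounting y := by exact_mod_cast hpi
    omega
  obtain ⟨S, hS1, hS2⟩ := exists_subset_card_eq hcardle
  have hmem : ∀ p ∈ S, p.Prime ∧ p ≤ y ∧ z < p := by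
    intro p hp
    have := hS1 hp
    rw [mem_filter, Nat.mem_primesLE] at this
    exact ⟨this.1.2, this.1.1, this.2⟩
  refine ⟨S, fun p hp => ⟨(hmem p hp).1, ?_⟩, fun p hp => (hmem p hp).2.2.le, ?_, hS2⟩
  · have := (hmem p hp).2.2
    omega
  · have h1 : Q S ≤ y ^ k := by
      unfold Q
      rw [← hS2]
      exact prod_le_pow_card _ _ _ (fun p hp => (hmem p hp).2.1)
    refine h1.trans ?_
    have h2 : ((y ^ k : ℕ) : ℝ) ≤ n := by
      rw [Nat.cast_pow, ← Real.log_le_log_iff (by positivity) hn0', Real.log_pow]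
      have h3 : (k : ℝ) * Real.log y ≤ (L / Real.log (2 * L)) * Real.log (2 * L) :=
        mul_le_mul hk1 hlogy hlogypos.le (by positivity)
      rw [div_mul_cancel₀ _ hl0.ne'] at h3
      exact h3
    exact_mod_cast h2

/-- Main theorem: for every `c < (log 2) / 2` and all large `n`, the first `n` squares are covered
by `A + A` for a set `A` of at most `n ^ (1 - c / log log n)` nonnegative integers. -/
theorem result : ∀ c : ℝ, 0 < c → c < Real.log 2 / 2 → ∃ N : ℕ, ∀ n : ℕ, N ≤ n →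
    ∃ A : Finset ℕ,
      (∀ k : ℕ, 1 ≤ k → k ≤ n → ∃ a ∈ A, ∃ b ∈ A, a + b = k ^ 2) ∧
        (A.card : ℝ) ≤ (n : ℝ) ^ (1 - c / Real.log (Real.log n)) := by
  intro c hc0 hc1
  have hlog2a : (0.69 : ℝ) < Real.log 2 := by have := Real.log_two_gt_d9; linarith
  have hlog2b : Real.log 2 < 0.7 := by have := Real.log_two_lt_d9; linarith
  -- the gap
  set d := Real.log 2 / 2 - c with hd
  have hd0 : 0 < d := by linarith
  obtain ⟨z0, hz0⟩ := exists_nat_gt (1 / d)
  set z := z0 + 2 with hzdef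
  have hz2 : 2 ≤ z := by omega
  have hzd : 1 / d < z := by
    rw [hzdef]; push_cast; linarith
  have hzpos : (0 : ℝ) < z := by positivity
  have hzd' : (1 : ℝ) / z < d := by
    rw [div_lt_iff₀ hd0] at hzd
    rw [div_lt_iff₀ hzpos]
    linarith
  set g : ℝ := 2 / (1 + 1 / z) with hg
  have h1z : (0 : ℝ) < 1 / z := by positivity
  have h1z1 : (1 : ℝ) / z ≤ 1 := by
    rw [div_le_one hzpos]
    have : (2 : ℝ) ≤ z := by exact_mod_cast hz2
    linarith
  have hg1 : 1 ≤ g := by rw [hg, le_div_iff₀ (by linarith)]; linarith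
  have hg2 : g ≤ 2 := by rw [hg, div_le_iff₀ (by linarith)]; linarith
  have hlogg : Real.log 2 - d ≤ Real.log g := by
    rw [hg, Real.log_div (by norm_num) (by linarith)]
    have := Real.log_le_sub_one_of_pos (show (0 : ℝ) < 1 + 1 / z by linarith)
    linarith
  obtain ⟨X0, hX0⟩ := prime_set z hz2
  obtain ⟨X1, hX1⟩ := log_small (d / 16) (by linarith)
  obtain ⟨X2, hX2⟩ := log_small (d / 100) (by linarith)
  have htend : Filter.Tendsto (fun n : ℕ => Real.log (n : ℝ)) Filter.atTop Filter.atTop :=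
    Real.tendsto_log_atTop.comp tendsto_natCast_atTop_atTop
  have htend2 : Filter.Tendsto (fun n : ℕ => Real.log (Real.log (n : ℝ))) Filter.atTop
      Filter.atTop := Real.tendsto_log_atTop.comp htend
  have hev := (htend.eventually_ge_atTop (max (max X0 X1) (max X2 100))).and
    (htend2.eventually_ge_atTop (max 1 (4 / d)))
  rw [Filter.eventually_atTop] at hev
  obtain ⟨N, hN⟩ := hev
  refine ⟨max N 1, fun n hn => ?_⟩
  have hn1 : 1 ≤ n := le_of_max_le_right hn
  obtain ⟨hL, hll⟩ := hN n (le_of_max_le_left hn)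
  set L := Real.log (n : ℝ) with hLdef
  have hL0 : X0 ≤ L := le_trans (le_max_left _ _) (le_of_max_le_left hL)
  have hL1 : X1 ≤ L := le_trans (le_max_right _ _) (le_of_max_le_left hL)
  have hL2 : X2 ≤ L := le_trans (le_max_left _ _) (le_of_max_le_right hL)
  have hL3 : 100 ≤ L := le_trans (le_max_right _ _) (le_of_max_le_right hL)
  set u := Real.log L with hu
  have hu1 : 1 ≤ u := le_of_max_le_left hll
  have hu2 : 4 / d ≤ u := le_of_max_le_right hll
  have hn0 : (0 : ℝ) < n := by exact_mod_cast hn1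
  obtain ⟨S, hS1, hS2, hS3, hS4⟩ := hX0 n hL0
  have hsq : ∀ p ∈ S, ((sq p).card : ℝ) ≤ (1 / g) * p := by
    intro p hp
    have h1 : ((sq p).card : ℝ) ≤ ((p : ℝ) + 1) / 2 := by
      have h2 := card_sq p
      have h3 : 2 * (sq p).card ≤ p + 1 := by omega
      have h4 : (2 : ℝ) * ((sq p).card : ℝ) ≤ (p : ℝ) + 1 := by exact_mod_cast h3
      linarith
    have h5 : (1 / g) * (p : ℝ) = ((p : ℝ) + p / z) / 2 := by
      rw [hg]
      field_simp
    have h6 : (1 : ℝ) ≤ p / z := by
      rw [le_div_iff₀ hzpos, one_mul]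
      exact_mod_cast hS2 p hp
    rw [h5]
    linarith
  obtain ⟨B, hB1, hB2⟩ := finite_bound hS1 hg1 hg2 hsq n hS3
  refine ⟨B, hB1, hB2.trans ?_⟩
  have hlog4 : Real.log 4 = 2 * Real.log 2 := by
    rw [show (4 : ℝ) = 2 ^ 2 by norm_num, Real.log_pow]; norm_num
  have hlog2L : Real.log (2 * L) = Real.log 2 + u :=
    Real.log_mul (by norm_num) (by linarith)
  have hcard : L / (Real.log 2 + u) - 1 ≤ S.card := by
    rw [hS4, hlog2L]
    have := Nat.lt_floor_add_one (L / (Real.log 2 + u))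
    linarith
  have hgpos : (0 : ℝ) < g ^ S.card := by positivity
  have hlogs : Real.log (Real.sqrt (g ^ S.card)) = S.card * Real.log g / 2 := by
    rw [Real.log_sqrt hgpos.le, Real.log_pow]
  have hkey : Real.log 4 + c * (L / u) ≤ Real.log (Real.sqrt (g ^ S.card)) := by
    rw [hlogs, hlog4]
    have hu0 : 0 < u := by linarith
    have hw0 : 0 < Real.log 2 + u := by linarith
    -- log g / 2 ≥ c + d / 2
    have h1 : c + d / 2 ≤ Real.log g / 2 := by linarith
    have h2 : (L / (Real.log 2 + u) - 1) * (c + d / 2) ≤ S.card * (Real.log g / 2) := by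
      have h3 : (L / (Real.log 2 + u) - 1) * (c + d / 2) ≤ S.card * (c + d / 2) :=
        mul_le_mul_of_nonneg_right hcard (by linarith)
      have h4 : (S.card : ℝ) * (c + d / 2) ≤ S.card * (Real.log g / 2) :=
        mul_le_mul_of_nonneg_left h1 (Nat.cast_nonneg _)
      linarith
    have h5 : c * (L / u) + d / 8 * (L / u) ≤ (L / (Real.log 2 + u)) * (c + d / 2) := by
      have h6 : c * (L / u) + d / 8 * (L / u) = (L * (c + d / 8)) / u := by ring
      have h7 : (L / (Real.log 2 + u)) * (c + d / 2) = (L * (c + d / 2)) / (Real.log 2 + u) := by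
        ring
      rw [h6, h7, div_le_div_iff₀ hu0 hw0]
      have h8 : (c + d / 8) * (Real.log 2 + u) ≤ (c + d / 2) * u := by
        have h9 : 4 ≤ u * d := by rwa [div_le_iff₀ hd0] at hu2
        have h10 : (c + d / 8) * Real.log 2 ≤ 1 * 1 :=
          mul_le_mul (by linarith) (by linarith) (by linarith) (by norm_num)
        have h20 : (c + d / 2) * u = (c + d / 8) * u + 3 / 8 * (u * d) := by ring
        have h21 : (c + d / 8) * (Real.log 2 + u)
            = (c + d / 8) * Real.log 2 + (c + d / 8) * u := by ring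
        linarith
      have h11 : L * (c + d / 8) * (Real.log 2 + u) = L * ((c + d / 8) * (Real.log 2 + u)) := by
        ring
      have h12 : L * (c + d / 2) * u = L * ((c + d / 2) * u) := by ring
      rw [h11, h12]
      exact mul_le_mul_of_nonneg_left h8 (by linarith)
    have h13 : 100 / d ≤ L / u := by
      rw [div_le_div_iff₀ hd0 hu0]
      have := hX2 L hL2
      linarith
    have h14 : 100 / 8 ≤ d / 8 * (L / u) := by
      have h15 : d / 8 * (100 / d) ≤ d / 8 * (L / u) :=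
        mul_le_mul_of_nonneg_left h13 (by linarith)
      have h16 : d / 8 * (100 / d) = 100 / 8 := by
        field_simp
      linarith
    have h17 : c + d / 2 ≤ 1 := by linarith
    have h18 : (L / (Real.log 2 + u) - 1) * (c + d / 2)
        = (L / (Real.log 2 + u)) * (c + d / 2) - (c + d / 2) := by ring
    have h19 : (S.card : ℝ) * Real.log g / 2 = S.card * (Real.log g / 2) := by ring
    rw [h19]
    linarith
  have hpos : (0 : ℝ) < 4 * n / Real.sqrt (g ^ S.card) := by positivity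
  rw [Real.rpow_def_of_pos hn0, ← Real.log_le_iff_le_exp hpos,
    Real.log_div (by positivity) (Real.sqrt_ne_zero'.2 hgpos), Real.log_mul (by norm_num) hn0.ne']
  have h7 : Real.log (n : ℝ) * (1 - c / Real.log (Real.log n)) = L - c * (L / u) := by
    rw [← hLdef, ← hu]; ring
  rw [h7]
  linarith

end Pool.Agent.Results.MP_071053_nt.SmallBasis
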